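import Pool.Agent.U845.XM.Stm

/-!
# Project XM, package K (helper123): points over the quadratic field
-/

set_option autoImplicit false

open scoped Classical

namespace Pool.Agent.U123.XM

open WeierstrassCurve WeierstrassCurve.Affine

/-- an involution of an abelian group with finitely many fixed points, anti-fixed points and points
of order two -/
theorem fin_group {A : Type*} [AddCommGroup A] (σ : A →+ A) (hσ : ∀ P, σ (σ P) = P)
    (h1 : {P : A | σ P = P}.Finite) (h2 : {P : A | σ P = -P}.Finite)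
    (h3 : {P : A | P + P = 0}.Finite) : Finite A := by
  have hS : (Set.image2 (fun a b : A => a + b) {P | σ P = P} {P | σ P = -P}).Finite :=
    h1.image2 _ h2
  have hf : ∀ b : A, ((fun P : A => P + P) ⁻¹' {b}).Finite := by
    intro b
    by_cases hb : ∃ P0 : A, P0 + P0 = b
    · obtain ⟨P0, h0⟩ := hb
      refine (h3.image (fun P => P0 + P)).subset ?_
      intro P hP
      have hP : P + P = b := hP
      refine ⟨P - P0, ?_, add_sub_cancel P0 P⟩
      show (P - P0) + (P - P0) = 0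
      have : (P - P0) + (P - P0) = (P + P) - (P0 + P0) := by abel
      rw [this, hP, h0, sub_self]
    · refine Set.finite_empty.subset ?_
      intro P hP
      exact hb ⟨P, hP⟩
  have hall : ((fun P : A => P + P) ⁻¹'
      (Set.image2 (fun a b : A => a + b) {P | σ P = P} {P | σ P = -P})).Finite :=
    Set.Finite.preimage' hS (fun b _ => hf b)
  rw [← Set.finite_univ_iff]
  refine hall.subset ?_
  intro P _
  refine ⟨P + σ P, ?_, P - σ P, ?_, ?_⟩
  · show σ (P + σ P) = P + σ P
    rw [map_add, hσ, add_comm]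
  · show σ (P - σ P) = -(P - σ P)
    rw [map_sub, hσ]
    abel
  · show (P + σ P) + (P - σ P) = P + P
    abel

section quad

variable {K : Type} [Field K] [NumberField K] {n : ℕ} {z : K}

theorem indep (hn : 0 < n) (hz : z ^ 2 = -(n : K)) (a b : ℚ)
    (h : algebraMap ℚ K a + algebraMap ℚ K b * z = 0) : a = 0 ∧ b = 0 := by
  by_cases hb : b = 0
  · subst hb
    rw [map_zero, zero_mul, add_zero] at h
    exact ⟨(map_eq_zero _).1 h, rfl⟩
  · exfalso
    have hb' : algebraMap ℚ K b ≠ 0 := (map_ne_zero _).2 hb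
    have h1 : algebraMap ℚ K b * z = algebraMap ℚ K (-a) := by
      rw [map_neg]
      linear_combination h
    have h2 : algebraMap ℚ K (b ^ 2 * (-(n : ℚ))) = algebraMap ℚ K ((-a) ^ 2) := by
      rw [map_mul, map_pow, map_neg, map_natCast, map_pow, ← h1, ← hz]
      ring
    have h3 : b ^ 2 * (-(n : ℚ)) = (-a) ^ 2 := (algebraMap ℚ K).injective h2
    have h4 : (0 : ℚ) < n := by exact_mod_cast hn
    have h5 : 0 < b ^ 2 := by positivity
    nlinarith [sq_nonneg a, mul_pos h5 h4]

theorem span_all (h2 : Module.finrank ℚ K = 2) (hn : 0 < n) (hz : z ^ 2 = -(n : K)) (x : K) :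
    ∃ a b : ℚ, x = algebraMap ℚ K a + algebraMap ℚ K b * z := by
  have hli : LinearIndependent ℚ ![(1 : K), z] := by
    rw [LinearIndependent.pair_iff]
    intro s t h
    apply indep hn hz
    rw [← h, Algebra.smul_def, Algebra.smul_def, mul_one]
  have hsp := hli.span_eq_top_of_card_eq_finrank (by simp [h2])
  have hx : x ∈ Submodule.span ℚ (Set.range ![(1 : K), z]) := by
    rw [hsp]; trivial
  rw [Matrix.range_cons, Matrix.range_cons, Matrix.range_empty, Set.union_empty,
    Set.singleton_union, Submodule.mem_span_pair] at hx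
  obtain ⟨a, b, h⟩ := hx
  refine ⟨a, b, ?_⟩
  rw [← h, Algebra.smul_def, Algebra.smul_def, mul_one]

theorem exists_conj (h2 : Module.finrank ℚ K = 2) (hn : 0 < n) (hz : z ^ 2 = -(n : K)) :
    ∃ σ : K →ₐ[ℚ] K, σ z = -z := by
  have : Algebra.IsQuadraticExtension ℚ K := ⟨h2⟩
  have hc : Nat.card (K ≃ₐ[ℚ] K) = 2 := by
    rw [IsGalois.card_aut_eq_finrank, h2]
  have : ∃ σ : K ≃ₐ[ℚ] K, σ ≠ 1 := by
    by_contra hcon
    push Not at hcon
    have : Subsingleton (K ≃ₐ[ℚ] K) := ⟨fun a b => by rw [hcon a, hcon b]⟩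
    have := Nat.card_of_subsingleton (1 : K ≃ₐ[ℚ] K)
    omega
  obtain ⟨σ, hσ⟩ := this
  have h3 : (σ z) ^ 2 = z ^ 2 := by
    rw [← map_pow, hz, map_neg, map_natCast]
  rcases sq_eq_sq_iff_eq_or_eq_neg.1 h3 with h | h
  · exfalso
    apply hσ
    ext x
    obtain ⟨a, b, rfl⟩ := span_all h2 hn hz x
    rw [map_add, map_mul, AlgEquiv.commutes, AlgEquiv.commutes, h]
    rfl
  · exact ⟨σ.toAlgHom, h⟩

end quad

/-- the curve `Y² = X³ + 41 X² + 400 X` -/
def W0 : WeierstrassCurve ℚ := ⟨0, 41, 0, 400, 0⟩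

section curve

variable {K : Type} [Field K] [NumberField K]

theorem eqn (x y : K) : (W0.baseChange K).toAffine.Equation x y ↔ y ^ 2 = x ^ 3 + 41 * x ^ 2 + 400 * x := by
  rw [WeierstrassCurve.Affine.equation_iff]
  simp [W0, WeierstrassCurve.baseChange, WeierstrassCurve.map]

theorem negy (x y : K) : (W0.baseChange K).toAffine.negY x y = -y := by
  simp [W0, WeierstrassCurve.baseChange, WeierstrassCurve.map, WeierstrassCurve.Affine.negY]

theorem disc : (W0.baseChange K).Δ ≠ 0 := by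
  have : (W0.baseChange K).Δ = 207360000 := by
    simp [W0, WeierstrassCurve.baseChange, WeierstrassCurve.map, WeierstrassCurve.Δ,
      WeierstrassCurve.b₂, WeierstrassCurve.b₄, WeierstrassCurve.b₆, WeierstrassCurve.b₈]
    norm_num
  rw [this]
  norm_num

/-- the coordinates of a point -/
def crd {W : WeierstrassCurve K} : W.toAffine.Point → Option (K × K)
  | .zero => none
  | .some x y _ => some (x, y)

omit [NumberField K] in
theorem crd_inj {W : WeierstrassCurve K} : Function.Injective (crd (W := W)) := by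
  rintro (_ | ⟨x, y, h⟩) (_ | ⟨x', y', h'⟩) e
  · rfl
  · simp [crd] at e
  · simp [crd] at e
  · simp only [crd, Option.some.injEq, Prod.mk.injEq] at e
    obtain ⟨rfl, rfl⟩ := e
    rfl

theorem fin_crd {W : WeierstrassCurve K} {A : Set W.toAffine.Point} {B : Set (K × K)} (hB : B.Finite)
    (h : ∀ x y h, (WeierstrassCurve.Affine.Point.some x y h : W.toAffine.Point) ∈ A → (x, y) ∈ B) :
    A.Finite := by
  refine Set.Finite.of_finite_image (f := crd) ?_ (crd_inj.injOn)
  refine ((hB.image some).insert none).subset ?_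
  rintro _ ⟨P, hP, rfl⟩
  rcases P with _ | ⟨x, y, hxy⟩
  · exact Or.inl rfl
  · exact Or.inr ⟨(x, y), h x y hxy hP, rfl⟩

end curve

theorem fin_W0 {K : Type} [Field K] [NumberField K] (h2 : Module.finrank ℚ K = 2) {n : ℕ} (hn : 0 < n)
    {z : K} (hz : z ^ 2 = -(n : K))
    (hA : {p : ℚ × ℚ | p.2 ^ 2 = p.1 ^ 3 + 41 * p.1 ^ 2 + 400 * p.1}.Finite)
    (hB : {p : ℚ × ℚ | p.2 ^ 2 = p.1 ^ 3 - 41 * n * p.1 ^ 2 + 400 * n ^ 2 * p.1}.Finite) :
    Finite (W0.baseChange K).toAffine.Point := by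
  obtain ⟨σ, hσ⟩ := exists_conj h2 hn hz
  have hfix : ∀ x : K, σ x = x → ∃ a : ℚ, x = algebraMap ℚ K a := by
    intro x hx
    obtain ⟨a, b, rfl⟩ := span_all h2 hn hz x
    rw [map_add, map_mul, AlgHom.commutes, AlgHom.commutes, hσ] at hx
    have h := indep hn hz 0 (2 * b) (by rw [map_zero, map_mul, map_ofNat]; linear_combination -hx)
    have hb : b = 0 := by
      have := h.2
      linarith
    subst hb
    exact ⟨a, by rw [map_zero]; ring⟩
  have hanti : ∀ x : K, σ x = -x → ∃ b : ℚ, x = algebraMap ℚ K b * z := by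
    intro x hx
    obtain ⟨a, b, rfl⟩ := span_all h2 hn hz x
    rw [map_add, map_mul, AlgHom.commutes, AlgHom.commutes, hσ] at hx
    have h := indep hn hz (2 * a) 0 (by rw [map_zero, map_mul, map_ofNat]; linear_combination hx)
    have ha : a = 0 := by
      have := h.1
      linarith
    subst ha
    exact ⟨b, by rw [map_zero]; ring⟩
  have hinv : ∀ x : K, σ (σ x) = x := by
    intro x
    obtain ⟨a, b, rfl⟩ := span_all h2 hn hz x
    rw [map_add, map_mul, AlgHom.commutes, AlgHom.commutes, hσ, map_add, map_mul, map_neg,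
      AlgHom.commutes, AlgHom.commutes, hσ]
    ring
  let τ : (W0.baseChange K).toAffine.Point →+ (W0.baseChange K).toAffine.Point :=
    WeierstrassCurve.Affine.Point.map (W' := W0) σ
  have hτs : ∀ x y h, ∃ h', τ (WeierstrassCurve.Affine.Point.some x y h) =
      WeierstrassCurve.Affine.Point.some (σ x) (σ y) h' := fun x y h => ⟨_, rfl⟩
  have hτ : ∀ P, τ (τ P) = P := by
    rintro (_ | ⟨x, y, h⟩)
    · rfl
    · apply crd_inj
      obtain ⟨h', e1⟩ := hτs x y h
      rw [e1]
      obtain ⟨h'', e2⟩ := hτs (σ x) (σ y) h'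
      rw [e2]
      simp only [crd, hinv]
  refine fin_group τ hτ ?_ ?_ ?_
  · refine fin_crd (hA.image fun p : ℚ × ℚ => (algebraMap ℚ K p.1, algebraMap ℚ K p.2)) ?_
    intro x y h hP
    obtain ⟨h', e1⟩ := hτs x y h
    have hP : τ (WeierstrassCurve.Affine.Point.some x y h) = WeierstrassCurve.Affine.Point.some x y h := hP
    rw [e1, WeierstrassCurve.Affine.Point.some.injEq] at hP
    obtain ⟨a, ha⟩ := hfix x hP.1
    obtain ⟨b, hb⟩ := hfix y hP.2
    refine ⟨(a, b), ?_, by rw [ha, hb]⟩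
    have h3 := (eqn x y).1 h.1
    rw [ha, hb] at h3
    show b ^ 2 = a ^ 3 + 41 * a ^ 2 + 400 * a
    apply (algebraMap ℚ K).injective
    simpa using h3
  · have hn' : (n : ℚ) ≠ 0 := by exact_mod_cast hn.ne'
    have hB' : {p : ℚ × ℚ | (n ^ 2 * p.2) ^ 2 = (-n * p.1) ^ 3 - 41 * n * (-n * p.1) ^ 2 +
        400 * n ^ 2 * (-n * p.1)}.Finite := by
      refine Set.Finite.preimage (f := fun p : ℚ × ℚ => ((-(n : ℚ) * p.1, (n : ℚ) ^ 2 * p.2) : ℚ × ℚ))
        (Function.Injective.injOn ?_) hB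
      rintro ⟨a, b⟩ ⟨a', b'⟩ e
      simp only [Prod.mk.injEq] at e
      have e1 : a = a' := mul_left_cancel₀ (neg_ne_zero.2 hn') e.1
      have e2 : b = b' := mul_left_cancel₀ (pow_ne_zero 2 hn') e.2
      rw [e1, e2]
    refine fin_crd (hB'.image fun p : ℚ × ℚ => (algebraMap ℚ K p.1, algebraMap ℚ K p.2 * z)) ?_
    intro x y h hP
    obtain ⟨h', e1⟩ := hτs x y h
    have hP : τ (WeierstrassCurve.Affine.Point.some x y h) = -WeierstrassCurve.Affine.Point.some x y h := hP
    rw [e1, WeierstrassCurve.Affine.Point.neg_some, WeierstrassCurve.Affine.Point.some.injEq, negy] at hP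
    obtain ⟨a, ha⟩ := hfix x hP.1
    obtain ⟨b, hb⟩ := hanti y hP.2
    refine ⟨(a, b), ?_, by rw [ha, hb]⟩
    have h3 := (eqn x y).1 h.1
    rw [ha, hb] at h3
    have h4 : algebraMap ℚ K (-(n : ℚ) * b ^ 2) = algebraMap ℚ K (a ^ 3 + 41 * a ^ 2 + 400 * a) := by
      have : (algebraMap ℚ K b * z) ^ 2 = algebraMap ℚ K (-(n : ℚ) * b ^ 2) := by
        rw [mul_pow, hz]
        simp
        ring
      rw [← this, h3]
      simp
    have h5 : -(n : ℚ) * b ^ 2 = a ^ 3 + 41 * a ^ 2 + 400 * a := (algebraMap ℚ K).injective h4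
    show ((n : ℚ) ^ 2 * b) ^ 2 = (-n * a) ^ 3 - 41 * n * (-n * a) ^ 2 + 400 * n ^ 2 * (-n * a)
    linear_combination (-(n : ℚ) ^ 3) * h5
  · refine fin_crd (B := {(0, 0), (-16, 0), (-25, 0)}) (Set.toFinite _) ?_
    intro x y h hP
    have hP : (WeierstrassCurve.Affine.Point.some x y h : (W0.baseChange K).toAffine.Point) +
      WeierstrassCurve.Affine.Point.some x y h = 0 := hP
    rw [add_eq_zero_iff_eq_neg, WeierstrassCurve.Affine.Point.neg_some,
      WeierstrassCurve.Affine.Point.some.injEq, negy] at hP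
    have hy : y = 0 := by
      have h3 := hP.2
      have h4 : (2 : K) * y = 0 := by linear_combination h3
      exact (mul_eq_zero.1 h4).resolve_left two_ne_zero
    have h3 := (eqn x y).1 h.1
    subst hy
    have h4 : x * ((x + 16) * (x + 25)) = 0 := by linear_combination -h3
    rcases mul_eq_zero.1 h4 with h5 | h5
    · left; rw [h5]
    · rcases mul_eq_zero.1 h5 with h6 | h6
      · right; left; rw [eq_neg_of_add_eq_zero_left h6]
      · right; right
        rw [eq_neg_of_add_eq_zero_left h6]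
        rfl

theorem kk (K : Type) [Field K] [NumberField K] (h2 : Module.finrank ℚ K = 2)
    (n : ℕ) (hn : 0 < n) (hz : ∃ z : K, z ^ 2 = -(n : K))
    (hA : {p : ℚ × ℚ | p.2 ^ 2 = p.1 ^ 3 + 41 * p.1 ^ 2 + 400 * p.1}.Finite)
    (hB : {p : ℚ × ℚ | p.2 ^ 2 = p.1 ^ 3 - 41 * n * p.1 ^ 2 + 400 * n ^ 2 * p.1}.Finite) :
    Finite (⟨1, 1, 1, -10, -10⟩ : WeierstrassCurve K).toAffine.Point := by
  obtain ⟨z, hz⟩ := hz
  have := fin_W0 h2 hn hz hA hB
  have hS : {p : K × K | p.2 ^ 2 = p.1 ^ 3 + 41 * p.1 ^ 2 + 400 * p.1}.Finite := by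
    have h1 : (Set.range (crd (W := W0.baseChange K))).Finite := Set.finite_range _
    refine Set.Finite.of_finite_image (f := some) (h1.subset ?_) (Option.some_injective _).injOn
    rintro _ ⟨⟨x, y⟩, h, rfl⟩
    have h : y ^ 2 = x ^ 3 + 41 * x ^ 2 + 400 * x := h
    exact ⟨.some x y ((WeierstrassCurve.Affine.equation_iff_nonsingular_of_Δ_ne_zero (W := (W0.baseChange K).toAffine) disc).1
      ((eqn x y).2 h)), rfl⟩
  rw [← Set.finite_univ_iff]
  have h4 : (4 : K) ≠ 0 := by norm_num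
  have hS' : {p : K × K | (4 * (2 * p.2 + p.1 + 1)) ^ 2 = (4 * p.1 - 12) ^ 3 +
      41 * (4 * p.1 - 12) ^ 2 + 400 * (4 * p.1 - 12)}.Finite := by
    refine Set.Finite.preimage (f := fun p : K × K => ((4 * p.1 - 12, 4 * (2 * p.2 + p.1 + 1)) : K × K))
      (Function.Injective.injOn ?_) hS
    rintro ⟨a, b⟩ ⟨a', b'⟩ e
    simp only [Prod.mk.injEq] at e
    have e1 : a = a' := mul_left_cancel₀ h4 (by linear_combination e.1)
    subst e1
    have e2 : b = b' := by
      have h8 : (8 : K) ≠ 0 := by norm_num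
      exact mul_left_cancel₀ h8 (by linear_combination e.2)
    rw [e2]
  refine fin_crd hS' ?_
  intro x y h _
  have h3 := (WeierstrassCurve.Affine.equation_iff _ _).1 h.1
  simp only at h3
  show (4 * (2 * y + x + 1)) ^ 2 = (4 * x - 12) ^ 3 + 41 * (4 * x - 12) ^ 2 + 400 * (4 * x - 12)
  linear_combination 64 * h3

theorem t_K : Pool.Agent.U845.XM.S_K := kk

end Pool.Agent.U123.XM
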